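import Pool.Agent.H6.ColD

/-!
Every graph whose colouring number is `n + 1` has a subgraph whose colouring number is `n`.
-/

open Cardinal Set

namespace Pool.Agent.Results.MP_279ba3_co.Milner

universe u

/-- The colouring number: the least cardinal `κ` such that some well-ordering of the vertices
puts fewer than `κ` neighbours of each vertex before it. -/
noncomputable def col {V : Type u} (G : SimpleGraph V) : Cardinal.{u} :=
  sInf {κ : Cardinal.{u} | ∃ r : V → V → Prop, IsWellOrder V r ∧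
    ∀ x : V, #{y : V // G.Adj x y ∧ r y x} < κ}

theorem encard_le_of_lt {V : Type u} {P : V → Prop} {c : ℕ}
    (h : #{y : V // P y} < ((c + 1 : ℕ) : Cardinal.{u})) : {y | P y}.encard ≤ c := by
  have hfin : {y | P y}.Finite := by
    rw [← lt_aleph0_iff_set_finite]
    exact lt_trans h (natCast_lt_aleph0)
  have h1 : (({y | P y}.ncard : ℕ) : Cardinal.{u}) < ((c + 1 : ℕ) : Cardinal.{u}) := by
    rw [Set.cast_ncard hfin]
    exact h
  have h2 : {y | P y}.ncard < c + 1 := by exact_mod_cast h1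
  rw [← hfin.cast_ncard_eq]
  exact_mod_cast Nat.lt_succ_iff.mp h2

theorem lt_of_encard_le {V : Type u} {P : V → Prop} {c : ℕ}
    (h : {y | P y}.encard ≤ c) : #{y : V // P y} < ((c + 1 : ℕ) : Cardinal.{u}) := by
  have hfin : {y | P y}.Finite := finite_of_encard_le_coe h
  have h1 : {y | P y}.ncard ≤ c := by
    rw [← hfin.cast_ncard_eq] at h
    exact_mod_cast h
  have h2 : (({y | P y}.ncard : ℕ) : Cardinal.{u}) < ((c + 1 : ℕ) : Cardinal.{u}) := by
    exact_mod_cast Nat.lt_succ_of_le h1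
  rw [Set.cast_ncard hfin] at h2
  exact h2

theorem mem_of_fr {V : Type u} {G : SimpleGraph V} {c : ℕ} (h : H6Col.Fr G c ∅ univ) :
    ∃ r : V → V → Prop, IsWellOrder V r ∧
      ∀ x : V, #{y : V // G.Adj x y ∧ r y x} < ((c + 1 : ℕ) : Cardinal.{u}) := by
  obtain ⟨r, wf, tot, deg⟩ := h
  have : IsWellFounded V r := ⟨wf⟩
  obtain ⟨s, hrs, hs⟩ := IsWellFounded.exists_well_order_ge r
  refine ⟨s, hs, fun x => lt_of_encard_le ((encard_le_encard ?_).trans (deg x (mem_univ x)))⟩
  rintro y ⟨h1, h2⟩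
  refine ⟨h1, Or.inr ⟨mem_univ y, ?_⟩⟩
  rcases tot x (mem_univ x) y (mem_univ y) h1 with h3 | h3
  · exact absurd (hrs _ _ h3) (hs.toIsWellFounded.wf.asymmetric _ _ h2)
  · exact h3

theorem fr_of_mem {V : Type u} {G : SimpleGraph V} {c : ℕ} {r : V → V → Prop}
    (hr : IsWellOrder V r)
    (h : ∀ x : V, #{y : V // G.Adj x y ∧ r y x} < ((c + 1 : ℕ) : Cardinal.{u})) :
    H6Col.Fr G c ∅ univ := by
  refine ⟨r, hr.toIsWellFounded.wf, ?_, ?_⟩
  · intro x _ y _ hxy
    by_contra hcon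
    push Not at hcon
    exact hxy.ne (hr.toTrichotomous.trichotomous x y hcon.1 hcon.2)
  · intro x _
    refine (encard_le_encard ?_).trans (encard_le_of_lt (h x))
    rintro y ⟨h1, h2 | h2⟩
    · exact absurd h2 (notMem_empty _)
    · exact ⟨h1, h2.2⟩

theorem col_eq {V : Type u} {G : SimpleGraph V} {m : ℕ} (h1 : H6Col.Fr G m ∅ univ)
    (h2 : ∀ κ : Cardinal.{u}, (∃ r : V → V → Prop, IsWellOrder V r ∧
      ∀ x : V, #{y : V // G.Adj x y ∧ r y x} < κ) → ((m + 1 : ℕ) : Cardinal.{u}) ≤ κ) :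
    col G = ((m + 1 : ℕ) : Cardinal.{u}) := by
  apply le_antisymm
  · exact csInf_le' (mem_of_fr h1)
  · exact le_csInf ⟨_, mem_of_fr h1⟩ (fun κ hκ => h2 κ hκ)

theorem col_le_of_iso {V W : Type u} {G : SimpleGraph V} {H : SimpleGraph W} (e : V ≃ W)
    (he : ∀ x y, G.Adj x y ↔ H.Adj (e x) (e y)) (κ : Cardinal.{u})
    (h : ∃ r : W → W → Prop, IsWellOrder W r ∧ ∀ x : W, #{y : W // H.Adj x y ∧ r y x} < κ) :
    ∃ r : V → V → Prop, IsWellOrder V r ∧ ∀ x : V, #{y : V // G.Adj x y ∧ r y x} < κ := by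
  obtain ⟨r, hr, hd⟩ := h
  refine ⟨e ⁻¹'o r, (RelEmbedding.preimage e.toEmbedding r).isWellOrder, fun x => ?_⟩
  refine lt_of_eq_of_lt ?_ (hd (e x))
  refine Cardinal.mk_congr (e.subtypeEquiv fun y => ?_)
  rw [he]
  exact Iff.rfl

theorem col_congr {V W : Type u} {G : SimpleGraph V} {H : SimpleGraph W} (e : V ≃ W)
    (he : ∀ x y, G.Adj x y ↔ H.Adj (e x) (e y)) : col G = col H := by
  unfold col
  congr 1
  ext κ
  constructor
  · intro h
    refine col_le_of_iso e.symm (fun x y => ?_) κ h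
    rw [he]; simp
  · intro h
    exact col_le_of_iso e he κ h

/-- **Milner's question**: every graph with colouring number `n + 1` has a subgraph with
colouring number `n`. -/
theorem result : ∀ (V : Type u) (G : SimpleGraph V) (n : ℕ), col G = (n : Cardinal.{u}) + 1 →
    ∃ G' : G.Subgraph, col G'.coe = (n : Cardinal.{u}) := by
  intro V G n hn
  rcases n with _ | n
  · refine ⟨⊥, ?_⟩
    have hemp : IsEmpty (⊥ : G.Subgraph).verts := by
      simp
    refine le_antisymm ?_ (by simp)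
    refine csInf_le' ?_
    exact ⟨emptyRelation, inferInstance, fun x => isEmptyElim x⟩
  -- it suffices to find a spanning subgraph
  suffices h : ∃ H : SimpleGraph V, H ≤ G ∧ col H = ((n + 1 : ℕ) : Cardinal.{u}) by
    obtain ⟨H, hHG, hH⟩ := h
    refine ⟨SimpleGraph.toSubgraph H hHG, ?_⟩
    rw [← hH]
    exact col_congr (Equiv.Set.univ V) (fun x y => Iff.rfl)
  have hn' : col G = ((n + 1 + 1 : ℕ) : Cardinal.{u}) := by
    rw [hn]; push_cast; rfl
  have hlow : ¬ H6Col.Fr G n ∅ univ := by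
    intro h
    have h1 : col G ≤ ((n + 1 : ℕ) : Cardinal.{u}) := csInf_le' (mem_of_fr h)
    rw [hn'] at h1
    have h2 : n + 1 + 1 ≤ n + 1 := by exact_mod_cast h1
    omega
  rcases n with _ | d
  · -- no edges
    refine ⟨⊥, bot_le, ?_⟩
    refine col_eq (m := 0) (H6Col.Fr.of_noedge _ _ _ _ (by simp)) ?_
    rintro κ ⟨r, _, hd⟩
    have hne : Nonempty V := by
      by_contra hcon
      rw [not_nonempty_iff] at hcon
      apply hlow
      exact ⟨emptyRelation, emptyWf.wf, fun x => isEmptyElim x, fun x => isEmptyElim x⟩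
    obtain ⟨v⟩ := hne
    have h1 : 0 < κ := lt_of_le_of_lt (by simp) (hd v)
    simpa using Cardinal.one_le_iff_pos.mpr h1
  · obtain ⟨H, hHG, -, h1, h2⟩ := H6Col.main (G := G) (d := d) _ ∅ univ rfl
      (empty_disjoint _) hlow
    refine ⟨H, hHG, col_eq h1 ?_⟩
    rintro κ ⟨r, hr, hd⟩
    by_contra hcon
    apply h2
    have h3 : κ < ((d + 1 + 1 : ℕ) : Cardinal.{u}) := not_le.mp hcon
    refine fr_of_mem hr (fun x => lt_of_lt_of_le (hd x) ?_)
    have h4 : ((d + 1 + 1 : ℕ) : Cardinal.{u}) = Order.succ ((d + 1 : ℕ) : Cardinal.{u}) :=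
      Cardinal.nat_succ _
    rw [h4] at h3
    exact Order.lt_succ_iff.mp h3

end Pool.Agent.Results.MP_279ba3_co.Milner
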